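import Pool.Agent.Results.MP_ec2323_pr.NoCutoff

set_option autoImplicit false

namespace Pool.Agent.Results.MP_d1aba8_pr.NoCutoff

open Finset Filter Topology Matrix

noncomputable section

section
variable {S : Type} [Fintype S] [DecidableEq S] (Q : Matrix S S ℝ) (π : S → ℝ)

/-- `Q` generates an irreducible continuous-time chain with stationary distribution `π`. -/
def IsChain : Prop := (∀ x y, x ≠ y → 0 ≤ Q x y) ∧ (∀ x, ∑ y, Q x y = 0) ∧
  (∀ x y, Relation.ReflTransGen (fun a b => a ≠ b ∧ 0 < Q a b) x y) ∧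
  (∀ x, 0 ≤ π x) ∧ ∑ x, π x = 1 ∧ π ᵥ* Q = 0

/-- Total variation distance to `π` at time `t` from `x`. -/
def d (x : S) (t : ℝ) : ℝ := (1 / 2) * ∑ y, |NormedSpace.exp (t • Q) x y - π y|

def tau (x : S) : ℝ := sInf {t : ℝ | 0 ≤ t ∧ d Q π x t ≤ 1 / 4}

/-- `μ` is a complex eigenvalue of `-Q`. -/
def IsEig (μ : ℂ) : Prop := ∃ f : S → ℂ, f ≠ 0 ∧ (-Q).map (fun a : ℝ => (a : ℂ)) *ᵥ f = μ • f
end

lemma real_eig {S : Type} [Fintype S] [DecidableEq S] {A : Matrix S S ℝ} (h : A.IsSymm) {μ : ℂ}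
    {f : S → ℂ} (hf : f ≠ 0) (e : A.map (fun a : ℝ => (a : ℂ)) *ᵥ f = μ • f) :
    μ.im = 0 ∧ ∃ g : S → ℝ, g ≠ 0 ∧ A *ᵥ g = μ.re • g := by
  have a : A *ᵥ (fun x => (f x).re) = μ.re • (fun x => (f x).re) - μ.im • fun x => (f x).im := by
    ext x
    simpa [mulVec, dotProduct] using congrArg Complex.re (congrFun e x)
  have b : A *ᵥ (fun x => (f x).im) = μ.re • (fun x => (f x).im) + μ.im • fun x => (f x).re := by
    ext x
    simpa [mulVec, dotProduct] using congrArg Complex.im (congrFun e x)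
  have c := dotProduct_mulVec (fun x => (f x).im) A fun x => (f x).re
  rw [← mulVec_transpose, h.eq, a, b, dotProduct_sub, add_dotProduct, dotProduct_smul,
    dotProduct_smul, smul_dotProduct, smul_dotProduct] at c
  obtain ⟨x, hx⟩ := Function.ne_iff.1 hf
  have p : 0 < (fun x => (f x).re) ⬝ᵥ (fun x => (f x).re) + (fun x => (f x).im) ⬝ᵥ fun x => (f x).im := by
    rw [dotProduct, dotProduct, ← sum_add_distrib]
    exact sum_pos' (fun y _ => by nlinarith) ⟨x, mem_univ _, Complex.normSq_pos.2 hx⟩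
  have i : μ.im = 0 := by
    simp only [smul_eq_mul] at c
    exact (mul_eq_zero.1 (by linarith : μ.im * _ = 0)).resolve_right p.ne'
  refine ⟨i, ?_⟩
  rw [i, zero_smul] at a b
  by_cases z : (fun x => (f x).re) = 0
  · exact ⟨_, fun z' => hx (Complex.ext (congrFun z x) (congrFun z' x)), by simpa using b⟩
  · exact ⟨_, z, by simpa using a⟩

open MP_ec2323_pr.NoCutoff hiding d tau
open MP_8d2225_pr H15.Cut

variable {p k r : ℕ} [Fact p.Prime] [NeZero r]

lemma Jsymm : (J (Γ p k r) - 1).IsSymm := by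
  rw [eJ]
  ext x y
  have := P_symm (S := NoCutoff.SS p k r) NoCutoff.SS_neg 1 y x
  simp only [pow_one] at this
  simp [this, one_apply, eq_comm]

lemma Jsum (x : NoCutoff.GG p k r) : ∑ y, (J (Γ p k r) - 1) x y = 0 := by
  have := P_sum (S := NoCutoff.SS p k r) NoCutoff.SS_neg NoCutoff.SS_ne 1 x
  rw [pow_one] at this
  rw [eJ]
  simp [← mul_sum, this, one_apply]

lemma chain : IsChain (J (Γ p k r) - 1) (stat (Γ p k r)) := by
  refine ⟨fun x y h => ?_, Jsum, fun x y => ?_, fun x => by rw [estat]; positivity, ?_, ?_⟩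
  · simp only [Matrix.sub_apply, one_apply_ne h, MP_ec2323_pr.NoCutoff.J, sub_zero]
    split_ifs <;> positivity
  · have := (SimpleGraph.reachable_iff_reflTransGen x y).1
      ((cay_conn (S := NoCutoff.SS p k r) NoCutoff.zero_nm NoCutoff.SS_neg NoCutoff.SS_gen) x y)
    refine Relation.ReflTransGen.mono (fun a b (h : (Γ p k r).Adj a b) => And.intro h.ne ?_) _ _ this
    have c : (0 : ℝ) < (NoCutoff.SS p k r).card := by exact_mod_cast NoCutoff.SS_ne.card_pos
    simp only [Matrix.sub_apply, one_apply_ne h.ne, MP_ec2323_pr.NoCutoff.J, sub_zero, if_pos h, cay_deg]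
    positivity
  · simp only [estat, sum_const, card_univ, nsmul_eq_mul]
    exact mul_one_div_cancel (by positivity)
  · ext y
    simp only [vecMul, dotProduct, estat, ← mul_sum, Jsymm.apply y, Jsum, mul_zero, Pi.zero_apply]

lemma gp (hp : 4 * (k + 2) ≤ p) (μ : ℂ) (h0 : μ ≠ 0) (h : IsEig (J (Γ p k r) - 1) μ) :
    1 / 4 ≤ μ.re := by
  obtain ⟨f, hf, e⟩ := h
  obtain ⟨i, g, hg, e'⟩ := real_eig Jsymm.neg hf e
  have a : 1 - μ.re / 2 ≤ MP_8d2225_pr.NoCutoff.lam2 (NoCutoff.SS p k r) := by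
    refine le_csSup ⟨1, ?_⟩ ⟨fun h => h0 (Complex.ext (by simp; linarith) i), g, hg, ?_⟩
    · rintro l ⟨-, f, hf, he⟩
      rw [NoCutoff.mulVec_eq] at he
      simpa using NoCutoff.eig hf he (NoCutoff.kill (c := 0) NoCutoff.SS_ne NoCutoff.zero_nm
        (empty_subset _) (by simp) (by simp))
    · rw [eJ, neg_mulVec, smul_mulVec, sub_mulVec, one_mulVec] at e'
      ext y
      have := congrFun e' y
      simp only [Pi.sub_apply, Pi.smul_apply, Pi.neg_apply, smul_eq_mul] at this ⊢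
      linarith
  linarith [MP_8d2225_pr.NoCutoff.gap (r := r) hp]

open Classical in
/-- Irreducible chains on which all `tau x` are equal (their common value `m n` is the median) and
tend to infinity, with spectral gap at least `1/4`, and without cutoff from a typical start. -/
theorem result : ∃ (S : ℕ → Type) (_ : ∀ n, Fintype (S n)) (_ : ∀ n, DecidableEq (S n))
    (Q : ∀ n, Matrix (S n) (S n) ℝ) (π : ∀ n, S n → ℝ) (m : ℕ → ℝ),
    (∀ n, IsChain (Q n) (π n)) ∧
    (∀ n x, tau (Q n) (π n) x = m n) ∧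
    (∀ n μ, μ ≠ 0 → IsEig (Q n) μ → 1 / 4 ≤ μ.re) ∧
    Tendsto m atTop atTop ∧
    ∃ ε : ℝ, 0 < ε ∧ ε < 1 ∧ ¬ Tendsto
      (fun n => ∑ x with 1 - ε < d (Q n) (π n) x ((1 - ε) * m n), π n x) atTop (𝓝 1) := by
  choose p hp pr using fun n : ℕ => Nat.exists_infinite_primes (4 * (16 * (n + 40) + 2))
  haveI : ∀ n, Fact (p n).Prime := fun n => ⟨pr n⟩
  haveI : ∀ n : ℕ, NeZero (n + 40) := fun n => ⟨by omega⟩
  have T := fun n => times (p := p n) (k := 16 * (n + 40)) (r := n + 40) (by omega) rfl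
    (by have := hp n; omega)
  refine ⟨_, inferInstance, inferInstance, fun n => J (Γ (p n) (16 * (n + 40)) (n + 40)) - 1,
    fun n => stat (Γ (p n) (16 * (n + 40)) (n + 40)),
    fun n => MP_ec2323_pr.NoCutoff.tau (Γ (p n) (16 * (n + 40)) (n + 40)) 0,
    fun n => chain, fun n x => ?_, fun n => gp (hp n), ?_, 1 / 10, by norm_num, by norm_num,
    fun h => ?_⟩
  · show MP_ec2323_pr.NoCutoff.tau _ x = _
    simp only [MP_ec2323_pr.NoCutoff.tau, d_shift x]
  · refine tendsto_atTop_mono (fun n => ?_)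
      (tendsto_natCast_atTop_atTop.const_mul_atTop (by norm_num : (0 : ℝ) < 1 / 2))
    have b := (T n).1
    push_cast at b
    linarith
  · refine absurd (le_of_tendsto' (b := 0) h fun n => ?_) (by norm_num)
    exact (MP_ec2323_pr.NoCutoff.none (T n).2).le

end

end Pool.Agent.Results.MP_d1aba8_pr.NoCutoff
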